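import Mathlib
import Pool.Agent.helper80.EN.Spec
import Pool.Agent.helper14.FA.MaxCond

/-!
# Row HPT: the Hirsch-Plotkin theorem
-/

set_option autoImplicit false

namespace Pool.Agent.helper80.EN

open Subgroup

universe u

namespace HPTaux

section Gen

variable {G : Type u} [Group G]

/-- Subgroups of a finitely generated subgroup of a locally nilpotent subgroup are finitely
generated. -/
theorem fg_of_le {H L W : Subgroup G} (hH : LocNilp H) (hL : L.FG) (hLH : L ≤ H) (hWL : W ≤ L) :
    W.FG := by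
  have hn : Group.IsNilpotent L := hH L hL hLH
  have hfg : Group.FG L := (Group.fg_iff_subgroup_fg L).2 hL
  obtain ⟨S, hS⟩ := Pool.Agent.helper14.FA.maxCond_of_nilpotent L hfg (W.subgroupOf L)
  classical
  refine ⟨S.image L.subtype, ?_⟩
  rw [Finset.coe_image, ← MonoidHom.map_closure, hS]
  exact Subgroup.map_subgroupOf_eq_of_le hWL

/-- The subgroup generated by the conjugates of `C` under `A`. -/
def cc (A : Subgroup G) (C : Set G) : Subgroup G :=
  closure {x | ∃ c ∈ C, ∃ g ∈ A, x = g⁻¹ * c * g}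

theorem cc_sub (A : Subgroup G) (C : Set G) : C ⊆ cc A C := by
  intro c hc
  exact subset_closure ⟨c, hc, 1, one_mem A, by group⟩

theorem cc_conj (A : Subgroup G) (C : Set G) {a : G} (ha : a ∈ A) :
    ∀ x ∈ cc A C, a⁻¹ * x * a ∈ cc A C := by
  intro x hx
  refine closure_induction (p := fun x _ => a⁻¹ * x * a ∈ cc A C) ?_ ?_ ?_ ?_ hx
  · rintro x ⟨c, hc, g, hg, rfl⟩
    exact subset_closure ⟨c, hc, g * a, mul_mem hg ha, by group⟩
  · have : a⁻¹ * 1 * a = 1 := by group
    rw [this]; exact one_mem _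
  · intro x y _ _ hx hy
    have : a⁻¹ * (x * y) * a = (a⁻¹ * x * a) * (a⁻¹ * y * a) := by group
    rw [this]; exact mul_mem hx hy
  · intro x _ hx
    have : a⁻¹ * x⁻¹ * a = (a⁻¹ * x * a)⁻¹ := by group
    rw [this]; exact inv_mem hx

theorem cc_le_normal {A : Subgroup G} {C : Set G} {H : Subgroup G} (hH : H.Normal)
    (hC : C ⊆ H) : cc A C ≤ H := by
  rw [cc, closure_le]
  rintro x ⟨c, hc, g, _, rfl⟩
  have := hH.conj_mem c (hC hc) g⁻¹
  rw [inv_inv] at this
  exact this

theorem cc_le {A : Subgroup G} {C : Set G} {L : Subgroup G} (hA : A ≤ L) (hC : C ⊆ L) :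
    cc A C ≤ L := by
  rw [cc, closure_le]
  rintro x ⟨c, hc, g, hg, rfl⟩
  exact mul_mem (mul_mem (inv_mem (hA hg)) (hC hc)) (hA hg)

theorem le_norm {A V : Subgroup G} (h : ∀ a ∈ A, ∀ v ∈ V, a⁻¹ * v * a ∈ V) :
    A ≤ normalizer (V : Set G) := by
  intro a ha
  rw [mem_normalizer_iff]
  intro x
  constructor
  · intro hx
    have := h a⁻¹ (inv_mem ha) x hx
    rw [inv_inv] at this
    exact this
  · intro hx
    have := h a ha _ hx
    have e : a⁻¹ * (a * x * a⁻¹) * a = x := by group
    rw [e] at this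
    exact this

/-- Closure of a join under conjugation. -/
theorem sup_conj {A V : Subgroup G} {b : G} (hA : ∀ x ∈ A, b⁻¹ * x * b ∈ A ⊔ V)
    (hV : ∀ x ∈ V, b⁻¹ * x * b ∈ A ⊔ V) : ∀ x ∈ A ⊔ V, b⁻¹ * x * b ∈ A ⊔ V := by
  have h : A ⊔ V ≤ (A ⊔ V).comap (MulAut.conj b⁻¹).toMonoidHom := by
    refine sup_le ?_ ?_
    · intro x hx
      rw [mem_comap]
      have := hA x hx
      simpa using this
    · intro x hx
      rw [mem_comap]
      have := hV x hx
      simpa using this
  intro x hx
  have := h hx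
  rw [mem_comap] at this
  simpa using this

theorem core (hFIT : FIT_stmt.{u}) {H K A B : Subgroup G} (hHn : H.Normal) (hKn : K.Normal)
    (hH : LocNilp H) (hK : LocNilp K) (hAfg : A.FG) (hBfg : B.FG) (hAH : A ≤ H) (hBK : B ≤ K)
    (htop : A ⊔ B = ⊤) : Group.IsNilpotent G := by
  classical
  obtain ⟨X, hX⟩ := hAfg
  obtain ⟨Y, hY⟩ := hBfg
  set C : Finset G := (X ×ˢ Y).image (fun p => com p.1 p.2) with hC
  have hCm : ∀ x ∈ X, ∀ y ∈ Y, com x y ∈ (C : Set G) := by
    intro x hx y hy
    rw [hC, Finset.coe_image]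
    exact ⟨(x, y), by simp [hx, hy], rfl⟩
  have hXA : (X : Set G) ⊆ A := by rw [← hX]; exact subset_closure
  have hYB : (Y : Set G) ⊆ B := by rw [← hY]; exact subset_closure
  have hCH : (C : Set G) ⊆ H := by
    intro z hz
    rw [hC, Finset.coe_image] at hz
    obtain ⟨⟨x, y⟩, hxy, rfl⟩ := hz
    simp only [Finset.coe_product, Set.mem_prod, Finset.mem_coe] at hxy
    have hx : x ∈ H := hAH (hXA hxy.1)
    have h1 : y⁻¹ * x * y ∈ H := by
      have := hHn.conj_mem x hx y⁻¹
      rwa [inv_inv] at this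
    have e : com x y = x⁻¹ * (y⁻¹ * x * y) := by unfold com; group
    change com x y ∈ H
    rw [e]
    exact mul_mem (inv_mem hx) h1
  have hCK : (C : Set G) ⊆ K := by
    intro z hz
    rw [hC, Finset.coe_image] at hz
    obtain ⟨⟨x, y⟩, hxy, rfl⟩ := hz
    simp only [Finset.coe_product, Set.mem_prod, Finset.mem_coe] at hxy
    have hy : y ∈ K := hBK (hYB hxy.2)
    have h1 : x⁻¹ * y⁻¹ * x ∈ K := by
      have := hKn.conj_mem y⁻¹ (inv_mem hy) x⁻¹
      rwa [inv_inv] at this
    have e : com x y = (x⁻¹ * y⁻¹ * x) * y := by unfold com; group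
    change com x y ∈ K
    rw [e]
    exact mul_mem h1 hy
  set U : Subgroup G := cc A (C : Set G) with hU
  set V : Subgroup G := cc B (U : Set G) with hV
  have hUH : U ≤ H := cc_le_normal hHn hCH
  have hUK : U ≤ K := cc_le_normal hKn hCK
  have hVH : V ≤ H := cc_le_normal hHn hUH
  have hVK : V ≤ K := cc_le_normal hKn hUK
  have hUV : U ≤ V := cc_sub B (U : Set G)
  have hAfg : A.FG := ⟨X, hX⟩
  have hBfg : B.FG := ⟨Y, hY⟩
  have hCfg : (closure (C : Set G)).FG := ⟨C, rfl⟩
  have hUfg : U.FG := by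
    refine fg_of_le hH (hAfg.sup hCfg) (sup_le hAH ((closure_le H).2 hCH)) ?_
    exact cc_le le_sup_left (fun c hc => mem_sup_right (subset_closure hc))
  have hVfg : V.FG := by
    refine fg_of_le hK (hBfg.sup hUfg) (sup_le hBK hUK) ?_
    exact cc_le le_sup_left (fun c hc => mem_sup_right hc)
  -- commutators of `A` with the generators of `B`
  have s1 : ∀ a ∈ A, ∀ y ∈ Y, com a y ∈ U := by
    intro a ha y hy
    have ha' : a ∈ closure (X : Set G) := by rw [hX]; exact ha
    refine closure_induction (p := fun a _ => com a y ∈ U) ?_ ?_ ?_ ?_ ha'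
    · intro x hx
      exact cc_sub A _ (hCm x hx y hy)
    · have : com 1 y = 1 := by unfold com; group
      rw [this]; exact one_mem _
    · intro a a' _ ha' h1 h2
      have e : com (a * a') y = (a'⁻¹ * com a y * a') * com a' y := by unfold com; group
      rw [e]
      rw [hX] at ha'
      exact mul_mem (cc_conj A _ ha' _ h1) h2
    · intro a ha h1
      have e : com a⁻¹ y = (a⁻¹)⁻¹ * (com a y)⁻¹ * a⁻¹ := by unfold com; group
      rw [e]
      rw [hX] at ha
      exact cc_conj A _ (inv_mem ha) _ (inv_mem h1)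
  have s2 : ∀ a ∈ A, ∀ b ∈ B, com a b ∈ V := by
    intro a ha b hb
    have hb' : b ∈ closure (Y : Set G) := by rw [hY]; exact hb
    refine closure_induction (p := fun b _ => com a b ∈ V) ?_ ?_ ?_ ?_ hb'
    · intro y hy
      exact hUV (s1 a ha y hy)
    · have : com a 1 = 1 := by unfold com; group
      rw [this]; exact one_mem _
    · intro b b' _ hb' h1 h2
      have e : com a (b * b') = com a b' * (b'⁻¹ * com a b * b') := by unfold com; group
      rw [e]
      rw [hY] at hb'
      exact mul_mem h2 (cc_conj B _ hb' _ h1)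
    · intro b hb h1
      have e : com a b⁻¹ = (b⁻¹)⁻¹ * (com a b)⁻¹ * b⁻¹ := by unfold com; group
      rw [e]
      rw [hY] at hb
      exact cc_conj B _ (inv_mem hb) _ (inv_mem h1)
  have vB : ∀ b ∈ B, ∀ v ∈ V, b⁻¹ * v * b ∈ V := fun b hb v hv => cc_conj B _ hb v hv
  have vA : ∀ a ∈ A, ∀ v ∈ V, a⁻¹ * v * a ∈ V := by
    intro a ha v hv
    refine closure_induction (p := fun v _ => a⁻¹ * v * a ∈ V) ?_ ?_ ?_ ?_ hv
    · rintro v ⟨w, hw, h, hh, rfl⟩
      have hw2 : a⁻¹ * w * a ∈ U := cc_conj A _ ha w hw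
      have h3 : h⁻¹ * (a⁻¹ * w * a) * h ∈ V := subset_closure ⟨_, hw2, h, hh, rfl⟩
      have h4 : com a h ∈ V := s2 a ha h hh
      have e : a⁻¹ * (h⁻¹ * w * h) * a = com a h * (h⁻¹ * (a⁻¹ * w * a) * h) * (com a h)⁻¹ := by
        unfold com; group
      rw [e]
      exact mul_mem (mul_mem h4 h3) (inv_mem h4)
    · have : a⁻¹ * 1 * a = 1 := by group
      rw [this]; exact one_mem _
    · intro x y _ _ hx hy
      have : a⁻¹ * (x * y) * a = (a⁻¹ * x * a) * (a⁻¹ * y * a) := by group
      rw [this]; exact mul_mem hx hy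
    · intro x _ hx
      have : a⁻¹ * x⁻¹ * a = (a⁻¹ * x * a)⁻¹ := by group
      rw [this]; exact inv_mem hx
  have hM : (A ⊔ V).Normal := by
    rw [← normalizer_eq_top_iff, eq_top_iff, ← htop]
    refine sup_le (le_sup_left.trans le_normalizer) (le_norm ?_)
    intro b hb
    refine sup_conj ?_ ?_
    · intro x hx
      have e : b⁻¹ * x * b = x * com x b := by unfold com; group
      rw [e]
      exact mul_mem (mem_sup_left hx) (mem_sup_right (s2 x hx b hb))
    · intro x hx
      exact mem_sup_right (vB b hb x hx)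
  have hN : (B ⊔ V).Normal := by
    rw [← normalizer_eq_top_iff, eq_top_iff, ← htop]
    refine sup_le (le_norm ?_) (le_sup_left.trans le_normalizer)
    intro a ha
    refine sup_conj ?_ ?_
    · intro x hx
      have e : a⁻¹ * x * a = x * (com a x)⁻¹ := by unfold com; group
      rw [e]
      exact mul_mem (mem_sup_left hx) (mem_sup_right (inv_mem (s2 a ha x hx)))
    · intro x hx
      exact mem_sup_right (vA a ha x hx)
  have n1 : Group.IsNilpotent (A ⊔ V : Subgroup G) :=
    hH _ (hAfg.sup hVfg) (sup_le hAH hVH)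
  have n2 : Group.IsNilpotent (B ⊔ V : Subgroup G) :=
    hK _ (hBfg.sup hVfg) (sup_le hBK hVK)
  refine hFIT G (A ⊔ V) (B ⊔ V) hM hN n1 n2 ?_
  rw [eq_top_iff, ← htop]
  exact sup_le_sup le_sup_left le_sup_left

end Gen

end HPTaux

open HPTaux in
theorem HPT (hFIT : FIT_stmt.{u}) (hTRF : TRF_stmt.{u}) : HPT_stmt.{u} := by
  classical
  intro G _ H K hHn hKn hH hK L hL hLHK
  obtain ⟨S, hS⟩ := hL
  have hdec : ∀ s ∈ S, ∃ h ∈ H, ∃ k ∈ K, h * k = s := by
    intro s hs
    have h1 : s ∈ H ⊔ K := by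
      apply hLHK
      rw [← hS]
      exact subset_closure hs
    exact Subgroup.mem_sup_of_normal_right.1 h1
  choose! h hh k hk hhk using hdec
  have hAH : closure ((S.image h : Finset G) : Set G) ≤ H := by
    rw [closure_le, Finset.coe_image]
    rintro x ⟨s, hs, rfl⟩
    exact hh s hs
  have hBK : closure ((S.image k : Finset G) : Set G) ≤ K := by
    rw [closure_le, Finset.coe_image]
    rintro x ⟨s, hs, rfl⟩
    exact hk s hs
  set A : Subgroup G := closure ((S.image h : Finset G) : Set G) with hA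
  set B : Subgroup G := closure ((S.image k : Finset G) : Set G) with hB
  have hAfg : A.FG := ⟨_, rfl⟩
  have hBfg : B.FG := ⟨_, rfl⟩
  set J : Subgroup G := A ⊔ B with hJ
  have hLJ : L ≤ J := by
    rw [← hS, closure_le]
    intro s hs
    rw [← hhk s hs]
    refine mul_mem (mem_sup_left (subset_closure ?_)) (mem_sup_right (subset_closure ?_))
    · rw [Finset.coe_image]; exact ⟨s, hs, rfl⟩
    · rw [Finset.coe_image]; exact ⟨s, hs, rfl⟩
  have hinj : Function.Injective J.subtype := J.subtype_injective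
  have fgJ : ∀ W : Subgroup G, W ≤ J → W.FG → (W.subgroupOf J).FG := by
    intro W hWJ hW
    have h1 : Group.FG W := (Group.fg_iff_subgroup_fg W).2 hW
    have h2 : Group.FG (W.subgroupOf J) :=
      Group.fg_of_surjective (f := (subgroupOfEquivOfLe hWJ).symm.toMonoidHom)
        (subgroupOfEquivOfLe hWJ).symm.surjective
    exact (Group.fg_iff_subgroup_fg _).1 h2
  have hJn : Group.IsNilpotent J := by
    refine core hFIT (H := H.subgroupOf J) (K := K.subgroupOf J) (A := A.subgroupOf J)
      (B := B.subgroupOf J) inferInstance inferInstance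
      ((hTRF J).2.2.2.1 G J.subtype H hinj hH) ((hTRF J).2.2.2.1 G J.subtype K hinj hK)
      (fgJ A le_sup_left hAfg) (fgJ B le_sup_right hBfg) ?_ ?_ ?_
    · intro x hx
      exact hAH hx
    · intro x hx
      exact hBK hx
    · rw [← subgroupOf_sup le_sup_left le_sup_right]
      exact subgroupOf_self J
  have e : L.subgroupOf J ≃* L := subgroupOfEquivOfLe hLJ
  have hnL : Group.IsNilpotent (L.subgroupOf J) := inferInstance
  exact Group.nilpotent_of_mulEquiv e

end Pool.Agent.helper80.EN
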