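import Pool.Agent.helper25.EN.Spec

set_option autoImplicit false

namespace EN

open Finset Real

theorem YNG_a (r : ℝ) (hr : 0 ≤ r) : 0 ≤ r * log r - r + 1 := by
  rcases hr.eq_or_lt with h | h
  · rw [← h]; norm_num
  · have h1 := Real.one_sub_inv_le_log_of_pos h
    have h2 : r * (1 - r⁻¹) ≤ r * log r := mul_le_mul_of_nonneg_left h1 hr
    have h3 : r * (1 - r⁻¹) = r - 1 := by
      rw [mul_sub, mul_one, mul_inv_cancel₀ h.ne']
    linarith

theorem YNG_b (r : ℝ) (hr : 0 ≤ r) : r ≤ r * log r - r + 1 + 2 := by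
  rcases hr.eq_or_lt with h | h
  · rw [← h]; norm_num
  · have he : 0 < exp 1 := exp_pos 1
    have h1 := YNG_a (r / exp 1) (div_nonneg hr he.le)
    rw [Real.log_div h.ne' he.ne', Real.log_exp] at h1
    have h2 : 0 ≤ exp 1 * (r / exp 1 * (log r - 1) - r / exp 1 + 1) := mul_nonneg he.le h1
    have h3 : exp 1 * (r / exp 1 * (log r - 1) - r / exp 1 + 1) = r * (log r - 1) - r + exp 1 := by
      field_simp
    rw [h3] at h2
    have h4 : exp 1 < 3 := by
      have := Real.exp_one_lt_d9
      linarith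
    nlinarith

theorem YNG (acp : ACP_stmt) (avg : AVG_stmt) : YNG_stmt := by
  classical
  intro m Q hQ S hS
  obtain ⟨r, hr⟩ : ∃ r : Om m → ℝ, ∀ x, r x = 2 ^ #(S x) * w Q (S x) x := ⟨_, fun _ => rfl⟩
  have hcell : ∀ x y : Om m, (∀ u ∈ S x, y u = x u) → r y = r x := by
    intro x y h
    rw [hr, hr, hS x y h]
    by_cases hv : ∃ v : Fin m, True
    · obtain ⟨v, -⟩ := hv
      rw [(acp m Q hQ (S x) v x).1 y h]
    · have hxy : y = x := by
        funext u
        exact absurd ⟨u, trivial⟩ hv
      rw [hxy]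
  have hw : ∀ x : Om m, 0 ≤ w Q (S x) x := fun x => Finset.sum_nonneg (fun y _ => hQ.1 y)
  have hr0 : ∀ x, 0 ≤ r x := fun x => by
    rw [hr]
    exact mul_nonneg (by positivity) (hw x)
  have hA := avg m Q hQ S hS
  have hp : (0 : ℝ) < 2 ^ m := by positivity
  have h1 : ∑ x, r x = 2 ^ m := by
    have h := hA (fun _ => 1) (fun _ _ _ => rfl)
    simp only [mul_one] at h
    rw [hQ.2] at h
    have h2 : ∑ x, 2 ^ #(S x) * w Q (S x) x / (2 : ℝ) ^ m = (∑ x, r x) / 2 ^ m := by
      rw [Finset.sum_div]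
      exact Finset.sum_congr rfl (fun x _ => by rw [hr])
    rw [h2] at h
    field_simp at h
    linarith
  have hK : ∑ x, r x * log (r x) = 2 ^ m * KT Q S := by
    have h := hA (fun x => log (r x)) (fun x y hxy => by
      have := hcell x y hxy
      simp only [this])
    have h2 : KT Q S = ∑ x, Q x * log (r x) := by
      unfold KT
      exact Finset.sum_congr rfl (fun x _ => by rw [hr])
    rw [h2, h]
    rw [Finset.mul_sum]
    refine Finset.sum_congr rfl (fun x _ => ?_)
    rw [← hr x]
    field_simp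
  have hcard : ∑ _x : Om m, (1 : ℝ) = 2 ^ m := by
    rw [Finset.sum_const, Finset.card_univ, nsmul_eq_mul, mul_one]
    simp
  have hf : ∑ x, (r x * log (r x) - r x + 1) = 2 ^ m * KT Q S := by
    rw [Finset.sum_add_distrib, Finset.sum_sub_distrib, hK, h1, hcard]
    ring
  refine ⟨?_, ?_⟩
  · have h2 : 0 ≤ ∑ x, (r x * log (r x) - r x + 1) := Finset.sum_nonneg (fun x _ => YNG_a _ (hr0 x))
    rw [hf] at h2
    exact nonneg_of_mul_nonneg_right h2 hp
  · intro F hF
    have h2 : ∑ x ∈ F, Q x = (∑ x ∈ F, r x) / 2 ^ m := by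
      have h := hA (fun x => if x ∈ F then 1 else 0) (fun x y hxy => by
        have h3 : y ∈ F ↔ x ∈ F := by
          constructor
          · intro hy
            refine hF y hy x ?_
            intro u hu
            rw [hS x y hxy] at hu
            exact (hxy u hu).symm
          · intro hx
            exact hF x hx y hxy
        simp only [h3])
      simp only [mul_ite, mul_one, mul_zero] at h
      rw [← Finset.sum_filter, Finset.filter_mem_eq_inter, Finset.univ_inter] at h
      rw [h, ← Finset.sum_div]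
      congr 1
      rw [← Finset.sum_filter, Finset.filter_mem_eq_inter, Finset.univ_inter]
      exact Finset.sum_congr rfl (fun x _ => by rw [hr])
    have h3 : ∑ x ∈ F, r x ≤ 2 ^ m * KT Q S + 2 * (#F : ℝ) := by
      calc ∑ x ∈ F, r x ≤ ∑ x ∈ F, ((r x * log (r x) - r x + 1) + 2) :=
            Finset.sum_le_sum (fun x _ => YNG_b _ (hr0 x))
        _ = ∑ x ∈ F, (r x * log (r x) - r x + 1) + 2 * (#F : ℝ) := by
            rw [Finset.sum_add_distrib, Finset.sum_const, nsmul_eq_mul]
            ring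
        _ ≤ ∑ x, (r x * log (r x) - r x + 1) + 2 * (#F : ℝ) := by
            have := Finset.sum_le_sum_of_subset_of_nonneg (Finset.subset_univ F)
              (fun x _ _ => YNG_a _ (hr0 x) : ∀ x ∈ (Finset.univ : Finset (Om m)), x ∉ F →
                0 ≤ r x * log (r x) - r x + 1)
            linarith
        _ = 2 ^ m * KT Q S + 2 * (#F : ℝ) := by rw [hf]
    rw [h2]
    calc (∑ x ∈ F, r x) / 2 ^ m ≤ (2 ^ m * KT Q S + 2 * (#F : ℝ)) / 2 ^ m :=
          div_le_div_of_nonneg_right h3 hp.le
      _ = KT Q S + 2 * (#F : ℝ) / 2 ^ m := by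
          rw [add_div, mul_div_cancel_left₀ _ hp.ne']

end EN

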