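import Mathlib
import Pool.Agent.helper80.EN.Spec2

/-!
# Row LNG: local geodesics in trees
-/

set_option autoImplicit false

namespace Pool.Agent.helper80.EN

universe u

theorem LNG (hTG : TG_stmt.{u}) : LNG_stmt.{u} := by
  intro V d hd f h1 h2
  obtain ⟨_, _, h3, _⟩ := hTG V d hd
  have key : ∀ k : ℕ, (∀ n : ℤ, d (f n) (f (n + (k : ℤ))) = k) ∧
      (∀ n : ℤ, d (f n) (f (n + ((k + 1 : ℕ) : ℤ))) = k + 1) := by
    intro k
    induction k with
    | zero =>
      refine ⟨fun n => ?_, fun n => ?_⟩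
      · rw [Nat.cast_zero, add_zero]
        exact (hd.eq _ _).2 rfl
      · have := h1 n
        simpa using this
    | succ k ih =>
      refine ⟨ih.2, fun n => ?_⟩
      have e1 : n + ((k + 1 : ℕ) : ℤ) = (n + (k : ℤ)) + 1 := by push_cast; ring
      have e2 : n + ((k + 1 + 1 : ℕ) : ℤ) = (n + (k : ℤ)) + 2 := by push_cast; ring
      have e3 : (n + (k : ℤ)) + 1 + 1 = (n + (k : ℤ)) + 2 := by ring
      have a1 := ih.1 n
      have a2 := ih.2 n
      rw [e1] at a2
      have b1 := h1 (n + (k : ℤ))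
      have b2 := h1 (n + (k : ℤ) + 1)
      rw [e3] at b2
      have b3 := h2 (n + (k : ℤ))
      have c := h3 (f n) (f (n + (k : ℤ))) (f (n + (k : ℤ) + 1)) (f (n + (k : ℤ) + 2))
        (by unfold Bt; omega) (by unfold Bt; omega)
        (by
          intro h
          have := (hd.eq _ _).2 h
          omega)
      rw [e2]
      omega
  have key2 : ∀ m n : ℤ, m ≤ n → (d (f m) (f n) : ℤ) = n - m := by
    intro m n hmn
    obtain ⟨k, hk⟩ := Int.eq_ofNat_of_zero_le (sub_nonneg.2 hmn)
    have e : n = m + (k : ℤ) := by omega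
    have := (key k).1 m
    rw [e, this]
    ring
  intro m n
  rcases le_total m n with h | h
  · rw [key2 m n h, abs_sub_comm, abs_of_nonneg (sub_nonneg.2 h)]
  · rw [hd.symm, key2 n m h, abs_of_nonneg (sub_nonneg.2 h)]

end Pool.Agent.helper80.EN
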