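import Mathlib
import Pool.Agent.helper80.EN.Spec2

/-!
# Row RFX: right Engel elements fix the axes pointwise
-/

set_option autoImplicit false

namespace Pool.Agent.helper80.EN

universe u

theorem RFX (hTEN : TEN_stmt.{u}) (hTHU : THU_stmt.{u}) (hRAX : RAX_stmt.{u}) :
    RFX_stmt.{u} := by
  intro G V _ _ _ d hA a ha hno g hg x hx
  have hpres : ∀ g : G, ¬ Ell V g → ∀ x ∈ Ax d g, a • x ∈ Ax d g := by
    intro g hg x hx
    obtain ⟨n, hn⟩ := ha g
    exact (hTEN G V d hA a g n hn hg x hx).1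
  obtain ⟨hline, huniq, hconj, hell⟩ := hTHU G V d hA
  by_cases hE : Ell V a
  · by_contra hne
    obtain ⟨h, y, hy, hhy⟩ := hno g hg
    exact hhy (hRAX G V d hA a hE hpres g hg ⟨x, hx, hne⟩ h y hy)
  · exfalso
    have hall : ∀ g : G, ¬ Ell V g → Ax d g = Ax d a := fun g hg =>
      huniq a hE (Ax d g) (hline g hg) (hpres g hg)
    obtain ⟨h, y, hy, hhy⟩ := hno a hE
    have h1 : ¬ Ell V (h⁻¹ * a * h) := fun h2 => hE ((hell a h).1 h2)
    have h2 := hall _ h1
    rw [← h2] at hy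
    exact hhy ((hconj a h y).1 hy)

end Pool.Agent.helper80.EN
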